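import Mathlib
import Pool.Agent.H84R8.Emb

set_option autoImplicit false

/-!
The space of left orders of Thompson's group `F` carries a conjugation invariant probability
measure whose conjugation action is essentially free, and if the conjugacy relation `E_lo(F)` is
hyperfinite (even only almost everywhere for that measure) then `F` is amenable.

The definitions used: `UI` (the interval `[0,1]`), `Dyadic`, `IsPL` and `ThompsonF` in
`Pool/Agent/H476R3/ThF.lean`; `IsLeftOrder`, `LO`, `conj` and `Elo` in `Pool/Agent/H84R8/Emb.lean`;
`IsInvMean` in `Pool/Agent/H84R8/Mean.lean`; `Hyperfinite` and `HyperfiniteAE` below. `TF`, `LOF`,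
`conjF` and `EloF` are short names for `F`, `LO(F)`, its conjugation action and `E_lo(F)`.
-/

namespace Pool.Agent.Results.MP_90e158_lc.HyperfiniteAmenable

open Pool.Agent.H476R3.ThF Pool.Agent.H84R8 MeasureTheory

/-- a relation on a measurable space is hyperfinite: it is the union of an increasing sequence of
measurable equivalence relations with finite classes -/
def Hyperfinite {X : Type} [MeasurableSpace X] (E : X → X → Prop) : Prop :=
  ∃ R : ℕ → X → X → Prop,
    (∀ n, MeasurableSet {p : X × X | R n p.1 p.2}) ∧
    (∀ n, Equivalence (R n)) ∧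
    (∀ n x, {y | R n x y}.Finite) ∧
    (∀ n x y, R n x y → R (n + 1) x y) ∧
    ∀ x y, E x y ↔ ∃ n, R n x y

/-- hyperfiniteness almost everywhere: the relation agrees, on the classes of almost all points,
with the union of an increasing sequence of measurable equivalence relations with finite classes -/
def HyperfiniteAE {X : Type} [MeasurableSpace X] (ν : Measure X) (E : X → X → Prop) : Prop :=
  ∃ R : ℕ → X → X → Prop,
    (∀ n, MeasurableSet {p : X × X | R n p.1 p.2}) ∧
    (∀ n, Equivalence (R n)) ∧
    (∀ n x, {y | R n x y}.Finite) ∧
    (∀ n x y, R n x y → R (n + 1) x y) ∧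
    ∀ᵐ x ∂ν, ∀ y, E x y ↔ ∃ n, R n x y

/-- amenability: there is a finitely additive left invariant probability measure on all subsets -/
def Amenable (G : Type) [Group G] : Prop := ∃ m : Set G → ℝ, IsInvMean m

/-- the type of elements of Thompson's group `F` -/
def TF : Type := ThompsonF

noncomputable instance instGroupTF : Group TF := inferInstanceAs (Group ThompsonF)

/-- the space of left orders of `F` -/
def LOF : Type := LO TF

/-- the product sigma-algebra on the space of left orders of `F` -/
instance instMeasLOF : MeasurableSpace LOF := inferInstanceAs (MeasurableSpace (LO TF))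

/-- the conjugation action of `F` on its space of left orders -/
noncomputable def conjF (g : TF) (o : LOF) : LOF := conj g o

/-- the relation `E_lo(F)` -/
def EloF (o o' : LOF) : Prop := Elo TF o o'

/-- invariance of a measure under the conjugation action -/
def ConjInvariant (ν : Measure LOF) : Prop := ∀ g : TF, MeasurePreserving (conjF g) ν ν

/-- almost every left order is fixed by no nontrivial element -/
def EssFree (ν : Measure LOF) : Prop := ∀ᵐ o ∂ν, ∀ g : TF, g ≠ 1 → conjF g o ≠ o

attribute [local instance] actX

theorem conj_meas (g : ThompsonF) : Measurable (conj g : LO ThompsonF → LO ThompsonF) := by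
  refine Measurable.subtype_mk (measurable_pi_lambda _ fun p => ?_)
  exact (measurable_pi_apply (p.1 * g, p.2 * g)).comp measurable_subtype_coe

theorem fix_meas (g : ThompsonF) : MeasurableSet {o : LO ThompsonF | conj g o = o} := by
  have : {o : LO ThompsonF | conj g o = o} =
      ⋂ p : ThompsonF × ThompsonF, {o : LO ThompsonF | (conj g o).1 p = o.1 p} := by
    ext o
    simp only [Set.mem_iInter]
    constructor
    · intro h p
      have h' : conj g o = o := h
      change (conj g o).1 p = o.1 p
      rw [h']
    · intro h
      exact Subtype.ext (funext h)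
  rw [this]
  refine MeasurableSet.iInter fun p => ?_
  have h1 : Measurable fun o : LO ThompsonF => (conj g o).1 p :=
    (measurable_pi_apply p).comp (measurable_subtype_coe.comp (conj_meas g))
  have h2 : Measurable fun o : LO ThompsonF => o.1 p :=
    (measurable_pi_apply p).comp measurable_subtype_coe
  exact measurableSet_eq_fun h1 h2

theorem main_aux : ∃ ν : Measure (LO ThompsonF), IsProbabilityMeasure ν ∧
      (∀ g : ThompsonF, MeasurePreserving (conj g) ν ν) ∧
      (∀ᵐ o ∂ν, ∀ g : ThompsonF, g ≠ 1 → conj g o ≠ o) ∧
      (HyperfiniteAE ν (Elo ThompsonF) → Amenable ThompsonF) := by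
  have hcomp : ∀ g : ThompsonF, (conj g ∘ ord) = ord ∘ fun ε : PT → ZMod 2 => g • ε := by
    intro g
    funext ε
    exact (ord_conj g ε).symm
  refine ⟨(bern PT).map ord, Measure.isProbabilityMeasure_map ord_meas.aemeasurable, ?_, ?_, ?_⟩
  · intro g
    refine ⟨conj_meas g, ?_⟩
    rw [Measure.map_map (conj_meas g) ord_meas, hcomp,
      ← Measure.map_map ord_meas (act_mp g).measurable, (act_mp g).map_eq]
  · rw [ae_all_iff]
    intro g
    by_cases hg : g = 1
    · exact Filter.Eventually.of_forall fun ε h => absurd hg h
    · have hm : MeasurableSet {o : LO ThompsonF | g ≠ 1 → conj g o ≠ o} := by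
        have : {o : LO ThompsonF | g ≠ 1 → conj g o ≠ o} =
            {o : LO ThompsonF | conj g o = o}ᶜ := by
          ext o
          exact ⟨fun h => h hg, fun h _ => h⟩
        rw [this]
        exact (fix_meas g).compl
      rw [ae_map_iff ord_meas.aemeasurable hm]
      filter_upwards [act_free] with ε hε _ h
      rw [← ord_conj] at h
      exact hε g hg (ord_inj h)
  · rintro ⟨R, hR, heq, hfin, hmono, hE⟩
    refine exists_mean (X := PT → ZMod 2) (fun n ε ε' => R n (ord ε) (ord ε')) (bern PT)
      act_mp act_free ?_ ?_ ?_ ?_ ?_ ?_ ?_
    · intro n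
      exact (ord_meas.prodMap ord_meas) (hR n)
    · intro n x; exact (heq n).refl _
    · intro n x y h; exact (heq n).symm h
    · intro n x y z h1 h2; exact (heq n).trans h1 h2
    · intro n x y h; exact hmono n _ _ h
    · intro n x
      exact (hfin n (ord x)).preimage ord_inj.injOn
    · filter_upwards [ae_of_ae_map ord_meas.aemeasurable hE] with x hx g
      rw [ord_conj]
      exact (hx _).1 ⟨g, rfl⟩

/-- There is a conjugation invariant Borel probability measure on `LO(F)` such that almost every
left order is fixed by no nontrivial element, and such that hyperfiniteness of `E_lo(F)` almost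
everywhere for this measure implies that `F` is amenable. In particular, if `E_lo(F)` is
hyperfinite then `F` is amenable. -/
theorem result :
    (∃ ν : Measure LOF, IsProbabilityMeasure ν ∧ ConjInvariant ν ∧ EssFree ν ∧
      (HyperfiniteAE ν EloF → Amenable TF)) ∧
    (Hyperfinite EloF → Amenable TF) := by
  have main : ∃ ν : Measure LOF, IsProbabilityMeasure ν ∧ ConjInvariant ν ∧ EssFree ν ∧
      (HyperfiniteAE ν EloF → Amenable TF) := main_aux
  refine ⟨main, ?_⟩
  rintro ⟨R, hR, heq, hfin, hmono, hE⟩
  obtain ⟨ν, _, _, _, h⟩ := main
  exact h ⟨R, hR, heq, hfin, hmono, Filter.Eventually.of_forall fun x => hE x⟩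

end Pool.Agent.Results.MP_90e158_lc.HyperfiniteAmenable
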